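import Pool.Agent.Helper9.SAW.A2
import Pool.Agent.Helper64.SAW.A1

set_option autoImplicit false

/-!
# Block A2: `EK`
-/

open Finset

namespace Pool.Agent.Helper9.SAW

open Pool.Agent.Helper54.SAW

variable {ι : Type*} [Fintype ι] [DecidableEq ι]

theorem EK (w : ι → ℕ) (T : Finset ι) (hw : ∀ i ∈ T, 1 ≤ w i) (R : ℕ)
    (hR : ∑ i ∈ T, w i ≤ R) (m : ℕ) (hm : m ≤ T.card) :
    (((m : ℝ) + 1) * (T.card : ℝ) / (8 * (R : ℝ))) * ((arr T).card : ℝ)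
      ≤ ∑ l ∈ arr T, ((Kz w m l : ℝ) + 1) :=
  EK_of w T hw R hR m hm (Pool.Agent.Helper64.SAW.sumKz_ge w T hw m hm)

end Pool.Agent.Helper9.SAW
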