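import Pool.Agent.Helper54.SAW.Arr

set_option autoImplicit false

/-!
# Block A2: coincidences of partial sums in a random arrangement (Cauchy-Schwarz)
-/

open Finset

namespace Pool.Agent.Helper9.SAW

open Pool.Agent.Helper54.SAW

/-- the set of shifts counted at the point `p` -/
def sh (q : ℕ) (X Y : ℕ → ℤ) (p : ℕ × ℕ) : Finset (ℕ × ℕ) :=
  (Icc 1 q ×ˢ Icc 1 q).filter (fun c => p.1 + c.1 ≤ q ∧ p.2 + c.2 ≤ q ∧
    X (p.1 + c.1) - X p.1 = Y (p.2 + c.2) - Y p.2)

lemma cs (q : ℕ) (X Y : ℕ → ℤ) (hX0 : X 0 = 0) (hY0 : Y 0 = 0)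
    (hX : ∀ i j, i < j → j ≤ q → X i < X j) (hY : ∀ i j, i < j → j ≤ q → Y i < Y j) :
    ((q : ℤ) + 1) ^ 4 ≤ (X q + Y q + 1) * (((q : ℤ) + 1) ^ 2 +
      2 * ∑ p ∈ range (q + 1) ×ˢ range (q + 1), ((sh q X Y p).card : ℤ)) := by
  classical
  set S := range (q + 1) ×ˢ range (q + 1) with hS
  set f : ℕ × ℕ → ℤ := fun p => X p.1 - Y p.2 with hf
  have hXm : ∀ i, i ≤ q → 0 ≤ X i ∧ X i ≤ X q := by
    intro i hi
    constructor
    · rcases Nat.eq_zero_or_pos i with h | h
      · rw [h, hX0]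
      · exact hX0 ▸ (hX 0 i h hi).le
    · rcases Nat.lt_or_eq_of_le hi with h | h
      · exact (hX i q h le_rfl).le
      · rw [h]
  have hYm : ∀ i, i ≤ q → 0 ≤ Y i ∧ Y i ≤ Y q := by
    intro i hi
    constructor
    · rcases Nat.eq_zero_or_pos i with h | h
      · rw [h, hY0]
      · exact hY0 ▸ (hY 0 i h hi).le
    · rcases Nat.lt_or_eq_of_le hi with h | h
      · exact (hY i q h le_rfl).le
      · rw [h]
  set B := Icc (-Y q) (X q) with hB
  have hmaps : ∀ p ∈ S, f p ∈ B := by
    intro p hp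
    simp only [hS, mem_product, mem_range] at hp
    have h1 := hXm p.1 (by omega)
    have h2 := hYm p.2 (by omega)
    simp only [hB, mem_Icc, hf]
    constructor <;> linarith [h1.1, h1.2, h2.1, h2.2]
  have hBcard : (B.card : ℤ) = X q + Y q + 1 := by
    have h1 := hXm q le_rfl
    have h2 := hYm q le_rfl
    rw [hB, Int.card_Icc, Int.toNat_of_nonneg (by linarith [h1.1, h2.1])]
    ring
  have hScard : (S.card : ℤ) = ((q : ℤ) + 1) ^ 2 := by
    rw [hS, card_product, card_range]
    push_cast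
    ring
  have h1 : (S.card : ℤ) = ∑ s ∈ B, ((S.filter (fun p => f p = s)).card : ℤ) := by
    exact_mod_cast card_eq_sum_card_fiberwise hmaps
  have h2 : ∑ s ∈ B, ((S.filter (fun p => f p = s)).card : ℤ) ^ 2 =
      ∑ p ∈ S, ((S.filter (fun p' => f p' = f p)).card : ℤ) := by
    rw [← sum_fiberwise_of_maps_to hmaps]
    refine sum_congr rfl fun s _ => ?_
    rw [sum_congr rfl (g := fun _ => ((S.filter (fun p => f p = s)).card : ℤ))]
    · rw [sum_const, nsmul_eq_mul]; ring
    · intro p hp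
      rw [(mem_filter.1 hp).2]
  have h3 : ((q : ℤ) + 1) ^ 4 ≤ (X q + Y q + 1) *
      ∑ p ∈ S, ((S.filter (fun p' => f p' = f p)).card : ℤ) := by
    have := sq_sum_le_card_mul_sum_sq (s := B) (f := fun s => ((S.filter (fun p => f p = s)).card : ℤ))
    rw [← h1, h2, hBcard, hScard] at this
    calc ((q : ℤ) + 1) ^ 4 = (((q : ℤ) + 1) ^ 2) ^ 2 := by ring
      _ ≤ _ := this
  have hpos : 0 ≤ X q + Y q + 1 := by
    have h1 := hXm q le_rfl
    have h2 := hYm q le_rfl
    linarith [h1.1, h2.1]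
  refine h3.trans (mul_le_mul_of_nonneg_left ?_ hpos)
  -- split the pairs
  set U : ℕ × ℕ → Finset (ℕ × ℕ) := fun p =>
    S.filter (fun p' => p.1 < p'.1 ∧ p.2 < p'.2 ∧ f p' = f p) with hU
  set L : ℕ × ℕ → Finset (ℕ × ℕ) := fun p =>
    S.filter (fun p' => p'.1 < p.1 ∧ p'.2 < p.2 ∧ f p' = f p) with hL
  have h4 : ∀ p ∈ S, ((S.filter (fun p' => f p' = f p)).card : ℤ) ≤
      1 + ((U p).card : ℤ) + ((L p).card : ℤ) := by
    intro p hp
    have hsub : S.filter (fun p' => f p' = f p) ⊆ ({p} ∪ U p) ∪ L p := by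
      intro p' hp'
      rw [mem_filter] at hp'
      obtain ⟨hp'S, he⟩ := hp'
      have hp2 := hp
      have hp'2 := hp'S
      simp only [hS, mem_product, mem_range] at hp2 hp'2
      simp only [mem_union, mem_singleton, hU, hL, mem_filter]
      have he' : X p'.1 - Y p'.2 = X p.1 - Y p.2 := he
      rcases lt_trichotomy p.1 p'.1 with h | h | h
      · have hx := hX _ _ h (by omega)
        have hy : p.2 < p'.2 := by
          by_contra hc
          rcases Nat.lt_or_eq_of_le (not_lt.1 hc) with h' | h'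
          · have := hY _ _ h' (by omega)
            linarith
          · rw [h'] at he'; linarith
        exact Or.inl (Or.inr ⟨hp'S, h, hy, he⟩)
      · rcases lt_trichotomy p.2 p'.2 with h' | h' | h'
        · have hy := hY _ _ h' (by omega)
          rw [h] at he'; linarith
        · exact Or.inl (Or.inl (Prod.ext h.symm h'.symm))
        · have hy := hY _ _ h' (by omega)
          rw [h] at he'; linarith
      · have hx := hX _ _ h (by omega)
        have hy : p'.2 < p.2 := by
          by_contra hc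
          rcases Nat.lt_or_eq_of_le (not_lt.1 hc) with h' | h'
          · have := hY _ _ h' (by omega)
            linarith
          · rw [h'] at he'; linarith
        exact Or.inr ⟨hp'S, h, hy, he⟩
    have hc := card_le_card hsub
    have hc2 := card_union_le ({p} ∪ U p) (L p)
    have hc3 := card_union_le ({p} : Finset (ℕ × ℕ)) (U p)
    rw [card_singleton] at hc3
    exact_mod_cast (by omega : (S.filter (fun p' => f p' = f p)).card ≤ 1 + (U p).card + (L p).card)
  have h5 : ∑ p ∈ S, ((L p).card : ℤ) = ∑ p ∈ S, ((U p).card : ℤ) := by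
    have e1 : ∀ p, ((L p).card : ℤ) = ∑ p' ∈ S, if (p'.1 < p.1 ∧ p'.2 < p.2 ∧ f p' = f p) then 1 else 0 := by
      intro p
      simp only [hL, card_filter]
      push_cast
      rfl
    have e2 : ∀ p, ((U p).card : ℤ) = ∑ p' ∈ S, if (p.1 < p'.1 ∧ p.2 < p'.2 ∧ f p' = f p) then 1 else 0 := by
      intro p
      simp only [hU, card_filter]
      push_cast
      rfl
    simp only [e1, e2]
    rw [sum_comm]
    refine sum_congr rfl fun p _ => sum_congr rfl fun p' _ => ?_
    simp only [eq_comm]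
  have h6 : ∀ p ∈ S, ((U p).card : ℤ) ≤ ((sh q X Y p).card : ℤ) := by
    intro p hp
    have : (U p).card ≤ (sh q X Y p).card := by
      refine card_le_card_of_injOn (fun p' => (p'.1 - p.1, p'.2 - p.2)) ?_ ?_
      · intro p' hp'
        have hp'' : p' ∈ U p := hp'
        simp only [hU, mem_filter, hS, mem_product, mem_range] at hp''
        obtain ⟨⟨ha, hb⟩, hc, hd, he⟩ := hp''
        have he' : X p'.1 - Y p'.2 = X p.1 - Y p.2 := he
        simp only [sh, coe_filter, mem_product, mem_Icc, Set.mem_ofPred_eq]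
        have e1 : p.1 + (p'.1 - p.1) = p'.1 := by omega
        have e2 : p.2 + (p'.2 - p.2) = p'.2 := by omega
        rw [e1, e2]
        refine ⟨⟨⟨by omega, by omega⟩, ⟨by omega, by omega⟩⟩, by omega, by omega, by linarith⟩
      · intro a ha b hb hab
        have ha' : a ∈ U p := ha
        have hb' : b ∈ U p := hb
        simp only [hU, mem_filter] at ha' hb'
        simp only [Prod.mk.injEq] at hab
        exact Prod.ext (by omega) (by omega)
    exact_mod_cast this
  calc ∑ p ∈ S, ((S.filter (fun p' => f p' = f p)).card : ℤ)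
      ≤ ∑ p ∈ S, (1 + ((U p).card : ℤ) + ((L p).card : ℤ)) := sum_le_sum h4
    _ = (S.card : ℤ) + 2 * ∑ p ∈ S, ((U p).card : ℤ) := by
        rw [sum_add_distrib, sum_add_distrib, h5]
        simp
        ring
    _ ≤ ((q : ℤ) + 1) ^ 2 + 2 * ∑ p ∈ S, ((sh q X Y p).card : ℤ) := by
        rw [hScard]
        have := sum_le_sum h6
        linarith

variable {ι : Type*} [Fintype ι] [DecidableEq ι]

omit [Fintype ι] [DecidableEq ι] in
lemma Wd_take_add (w : ι → ℕ) (l : List (ι × Bool)) (i a : ℕ) :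
    Wd w (l.take (i + a)) = Wd w (l.take i) + Wd w ((l.drop i).take a) := by
  rw [List.take_add, Wd_append]

omit [Fintype ι] in
lemma Wd_pos (w : ι → ℕ) (T : Finset ι) (hw : ∀ i ∈ T, 1 ≤ w i) (l : List (ι × Bool))
    (hl : supp l ⊆ T) : (l.length : ℤ) ≤ Wd w l := by
  induction l with
  | nil => simp [Wd]
  | cons x l ih =>
    have h1 : supp (x :: l) = insert x.1 (supp l) := by simp [supp]
    rw [h1] at hl
    have h2 := hw x.1 (hl (mem_insert_self _ _))
    have h3 := ih ((subset_insert _ _).trans hl)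
    rw [Wd_cons, List.length_cons]
    push_cast
    have : (1 : ℤ) ≤ w x.1 := by exact_mod_cast h2
    linarith

omit [Fintype ι] in
lemma supp_mono_sublist {a b : List (ι × Bool)} (h : a.Sublist b) : supp a ⊆ supp b := by
  intro i hi
  simp only [supp, List.mem_toFinset] at *
  exact (h.map _).subset hi

lemma Wd_arr (w : ι → ℕ) (T : Finset ι) {l : List (ι × Bool)} (hl : l ∈ arr T) :
    Wd w l = ∑ i ∈ T, (w i : ℤ) := by
  rw [mem_arr] at hl
  rw [← hl.2, supp, List.sum_toFinset _ hl.1]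
  simp [Wd, Function.comp_def]

/-- all positions have the same mean width -/
lemma sum_take (w : ι → ℕ) (T : Finset ι) (n : ℕ) (hn : n ≤ T.card) :
    ∑ l ∈ arr T, Wd w (l.take n) = n * ∑ l ∈ arr T, Wd w (l.take 1) := by
  induction n with
  | zero => simp [Wd]
  | succ n ih =>
    have e : ∀ l ∈ arr T, Wd w (l.take (n + 1)) = Wd w (l.take n) + Wd w ((l.rotate n).take 1) := by
      intro l hl
      rw [Wd_take_add]
      congr 2
      have hlen := length_arr hl
      rw [List.rotate_eq_drop_append_take (by omega), List.take_append_of_le_length]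
      rw [List.length_drop]; omega
    rw [sum_congr rfl e, sum_add_distrib, ih (by omega),
      sum_arr_rotate T n (fun l => Wd w (l.take 1))]
    push_cast
    ring

lemma card_mul_sum_take (w : ι → ℕ) (T : Finset ι) (n : ℕ) (hn : n ≤ T.card) :
    (T.card : ℤ) * ∑ l ∈ arr T, Wd w (l.take n) = n * ((∑ i ∈ T, (w i : ℤ)) * (arr T).card) := by
  have h1 := sum_take w T T.card le_rfl
  have h2 : ∑ l ∈ arr T, Wd w (l.take T.card) = (∑ i ∈ T, (w i : ℤ)) * (arr T).card := by
    rw [sum_congr rfl (g := fun _ => ∑ i ∈ T, (w i : ℤ)), sum_const, nsmul_eq_mul, mul_comm]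
    intro l hl
    rw [List.take_of_length_le (length_arr hl).le, Wd_arr w T hl]
  rw [sum_take w T n hn, ← h2, h1]
  ring

/-- move two segments to the front -/
lemma seg_le (w : ι → ℕ) (T : Finset ι) (q i j a b : ℕ) (hi : i + a ≤ q) (hj : j + b ≤ q)
    (hq : 2 * q ≤ T.card) :
    ((arr T).filter (fun l => Wd w ((l.drop i).take a) = Wd w ((l.drop (q + j)).take b))).card
      ≤ npi w T a b := by
  unfold npi
  set φ : List (ι × Bool) → List (ι × Bool) := fun l =>
    ((l.drop i).take a) ++ (((l.drop (q + j)).take b) ++ (l.take i ++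
      ((((l.drop (i + a)).take (q + j - (i + a)))) ++ l.drop (q + j + b)))) with hφ
  have hdec : ∀ l : List (ι × Bool), l = l.take i ++ ((l.drop i).take a ++
      ((l.drop (i + a)).take (q + j - (i + a)) ++ ((l.drop (q + j)).take b ++ l.drop (q + j + b)))) := by
    intro l
    conv_lhs => rw [← List.take_append_drop i l]
    congr 1
    conv_lhs => rw [← List.take_append_drop a (l.drop i)]
    rw [List.drop_drop]
    congr 1
    conv_lhs => rw [← List.take_append_drop (q + j - (i + a)) (l.drop (i + a))]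
    rw [List.drop_drop]
    have e : i + a + (q + j - (i + a)) = q + j := by omega
    rw [e]
    congr 1
    conv_lhs => rw [← List.take_append_drop b (l.drop (q + j))]
    rw [List.drop_drop]
  refine card_le_card_of_injOn φ ?_ ?_
  · intro l hl
    have hl' : l ∈ (arr T).filter
      (fun l => Wd w ((l.drop i).take a) = Wd w ((l.drop (q + j)).take b)) := hl
    rw [mem_filter] at hl'
    obtain ⟨h1, h2⟩ := hl'
    have hlen := length_arr h1
    have hperm : (φ l).Perm l := by
      conv_rhs => rw [hdec l]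
      simp only [hφ]
      generalize l.take i = A
      generalize (l.drop i).take a = B
      generalize (l.drop (i + a)).take (q + j - (i + a)) = C
      generalize (l.drop (q + j)).take b = D
      generalize l.drop (q + j + b) = E
      -- B ++ (D ++ (A ++ (C ++ E))) ~ A ++ (B ++ (C ++ (D ++ E)))
      rw [← Multiset.coe_eq_coe]
      simp only [← Multiset.coe_add]
      abel
    have hA : ((l.drop i).take a).length = a := by
      rw [List.length_take, List.length_drop]; omega
    have hD : ((l.drop (q + j)).take b).length = b := by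
      rw [List.length_take, List.length_drop]; omega
    have e1 : (φ l).take a = (l.drop i).take a := by
      simp only [hφ]
      rw [List.take_append_of_le_length (by omega), List.take_of_length_le (by omega)]
    have e2 : ((φ l).drop a).take b = (l.drop (q + j)).take b := by
      simp only [hφ]
      rw [List.drop_append_of_le_length (by omega), List.drop_of_length_le (by omega),
        List.nil_append, List.take_append_of_le_length (by omega), List.take_of_length_le (by omega)]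
    show φ l ∈ (((arr T).filter _ : Finset (List (ι × Bool))) : Set (List (ι × Bool)))
    rw [mem_coe, mem_filter, e1, e2]
    exact ⟨arr_perm h1 hperm, h2⟩
  · intro l hl l' hl' hll
    have h1 : l ∈ arr T := (mem_filter.1 (show l ∈ (arr T).filter _ from hl)).1
    have h1' : l' ∈ arr T := (mem_filter.1 (show l' ∈ (arr T).filter _ from hl')).1
    have hlen := length_arr h1
    have hlen' := length_arr h1'
    simp only [hφ] at hll
    have s1 := List.append_inj hll (by simp only [List.length_take, List.length_drop]; omega)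
    have s2 := List.append_inj s1.2 (by simp only [List.length_take, List.length_drop]; omega)
    have s3 := List.append_inj s2.2 (by simp only [List.length_take]; omega)
    have s4 := List.append_inj s3.2 (by simp only [List.length_take, List.length_drop]; omega)
    rw [hdec l, hdec l', s1.1, s2.1, s3.1, s4.1, s4.2]

lemma sum_sh_le (w : ι → ℕ) (T : Finset ι) (q : ℕ) (hq : 2 * q ≤ T.card) :
    ∑ l ∈ arr T, ∑ p ∈ range (q + 1) ×ˢ range (q + 1),
      ((sh q (fun i => Wd w (l.take i)) (fun j => Wd w ((l.drop q).take j)) p).card : ℤ) ≤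
    ((q : ℤ) + 1) ^ 2 * ∑ a ∈ Icc 1 q, ∑ b ∈ Icc 1 q, (npi w T a b : ℤ) := by
  classical
  rw [sum_comm]
  have key : ∀ p ∈ range (q + 1) ×ˢ range (q + 1),
      ∑ l ∈ arr T, ((sh q (fun i => Wd w (l.take i)) (fun j => Wd w ((l.drop q).take j)) p).card : ℤ)
      ≤ ∑ a ∈ Icc 1 q, ∑ b ∈ Icc 1 q, (npi w T a b : ℤ) := by
    intro p _
    rw [← sum_product']
    have e : ∀ l : List (ι × Bool),
        ((sh q (fun i => Wd w (l.take i)) (fun j => Wd w ((l.drop q).take j)) p).card : ℤ) =
        ∑ c ∈ Icc 1 q ×ˢ Icc 1 q, if (p.1 + c.1 ≤ q ∧ p.2 + c.2 ≤ q ∧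
          Wd w (l.take (p.1 + c.1)) - Wd w (l.take p.1) =
          Wd w ((l.drop q).take (p.2 + c.2)) - Wd w ((l.drop q).take p.2)) then 1 else 0 := by
      intro l
      simp only [sh, card_filter]
      push_cast
      rfl
    simp only [e]
    rw [sum_comm]
    refine sum_le_sum fun c _ => ?_
    by_cases hc : p.1 + c.1 ≤ q ∧ p.2 + c.2 ≤ q
    · have h1 := seg_le w T q p.1 p.2 c.1 c.2 hc.1 hc.2 hq
      have h2 : (∑ l ∈ arr T, if (p.1 + c.1 ≤ q ∧ p.2 + c.2 ≤ q ∧
          Wd w (l.take (p.1 + c.1)) - Wd w (l.take p.1) =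
          Wd w ((l.drop q).take (p.2 + c.2)) - Wd w ((l.drop q).take p.2)) then (1 : ℤ) else 0) =
          (((arr T).filter (fun l => Wd w ((l.drop p.1).take c.1) =
            Wd w ((l.drop (q + p.2)).take c.2))).card : ℤ) := by
        rw [card_filter]
        push_cast
        refine sum_congr rfl fun l _ => ?_
        rw [Wd_take_add, Wd_take_add, add_sub_cancel_left, add_sub_cancel_left, List.drop_drop]
        simp only [hc.1, hc.2, true_and]
      rw [h2]
      exact_mod_cast h1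
    · rw [sum_congr rfl (g := fun _ => (0 : ℤ))]
      · simp
      · intro l _
        rw [if_neg]
        tauto
  calc _ ≤ ∑ p ∈ range (q + 1) ×ˢ range (q + 1), ∑ a ∈ Icc 1 q, ∑ b ∈ Icc 1 q, (npi w T a b : ℤ) :=
        sum_le_sum key
    _ = _ := by
        rw [sum_const, card_product, card_range, nsmul_eq_mul]
        push_cast
        ring

lemma npi_le (w : ι → ℕ) (T : Finset ι) (m : ℕ) :
    ∑ a ∈ Icc 1 (m / 2), ∑ b ∈ Icc 1 (m / 2), npi w T a b ≤
      ∑ a ∈ Icc 1 m, ∑ b ∈ Icc 1 m, (if a + b ≤ m then npi w T a b else 0) := by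
  have hsub : Icc 1 (m / 2) ⊆ Icc 1 m := Icc_subset_Icc_right (Nat.div_le_self _ _)
  calc ∑ a ∈ Icc 1 (m / 2), ∑ b ∈ Icc 1 (m / 2), npi w T a b
      = ∑ a ∈ Icc 1 (m / 2), ∑ b ∈ Icc 1 (m / 2), (if a + b ≤ m then npi w T a b else 0) := by
        refine sum_congr rfl fun a ha => sum_congr rfl fun b hb => ?_
        rw [mem_Icc] at ha hb
        rw [if_pos (by omega)]
    _ ≤ ∑ a ∈ Icc 1 (m / 2), ∑ b ∈ Icc 1 m, (if a + b ≤ m then npi w T a b else 0) :=
        sum_le_sum fun a _ => sum_le_sum_of_subset hsub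
    _ ≤ _ := sum_le_sum_of_subset hsub

theorem EK_of (w : ι → ℕ) (T : Finset ι) (hw : ∀ i ∈ T, 1 ≤ w i) (R : ℕ)
    (hR : ∑ i ∈ T, w i ≤ R) (m : ℕ) (hm : m ≤ T.card)
    (hA1 : ∑ a ∈ Icc 1 m, ∑ b ∈ Icc 1 m, (if a + b ≤ m then npi w T a b else 0)
      ≤ ∑ l ∈ arr T, Kz w m l) :
    (((m : ℝ) + 1) * (T.card : ℝ) / (8 * (R : ℝ))) * ((arr T).card : ℝ)
      ≤ ∑ l ∈ arr T, ((Kz w m l : ℝ) + 1) := by
  rcases Nat.eq_zero_or_pos T.card with hT | hT
  · rw [hT]
    simp only [Nat.cast_zero, mul_zero, zero_div, zero_mul]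
    exact sum_nonneg fun l _ => by positivity
  set q := m / 2 with hq
  set N : ℝ := ((arr T).card : ℝ) with hN
  have hN0 : 0 < N := card_arr_pos T
  set t : ℝ := (T.card : ℝ) with ht
  have ht0 : 0 < t := by rw [ht]; exact_mod_cast hT
  have hRt' : T.card ≤ R := by
    refine le_trans ?_ hR
    calc T.card = ∑ i ∈ T, 1 := by simp
      _ ≤ ∑ i ∈ T, w i := sum_le_sum hw
  have hRt : t ≤ R := by rw [ht]; exact_mod_cast hRt'
  have hR0 : (0 : ℝ) < R := lt_of_lt_of_le ht0 hRt
  set h : ℝ := (q : ℝ) + 1 with hh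
  have hh0 : 0 < h := by positivity
  set D : List (ι × Bool) → ℝ := fun l => ((Wd w (l.take (2 * q)) : ℤ) : ℝ) with hD
  set Z : List (ι × Bool) → ℝ := fun l =>
    ((∑ p ∈ range (q + 1) ×ˢ range (q + 1),
      ((sh q (fun i => Wd w (l.take i)) (fun j => Wd w ((l.drop q).take j)) p).card : ℤ) : ℤ) : ℝ)
    with hZ
  have h2q : 2 * q ≤ T.card := by omega
  -- Cauchy-Schwarz for one arrangement
  have hcs : ∀ l ∈ arr T, h ^ 4 ≤ (D l + 1) * (h ^ 2 + 2 * Z l) ∧ 0 ≤ D l := by
    intro l hl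
    have hlen := length_arr hl
    have hsupp := (mem_arr.1 hl).2
    have mono : ∀ (l' : List (ι × Bool)), supp l' ⊆ T → ∀ i j, i < j → j ≤ l'.length →
        Wd w (l'.take i) < Wd w (l'.take j) := by
      intro l' hl' i j hij hj
      obtain ⟨c, rfl⟩ := Nat.exists_eq_add_of_lt hij
      rw [show i + c + 1 = i + (c + 1) by ring, Wd_take_add]
      have h1 := Wd_pos w T hw ((l'.drop i).take (c + 1))
        ((supp_mono_sublist ((List.take_sublist _ _).trans (List.drop_sublist _ _))).trans hl')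
      rw [List.length_take, List.length_drop] at h1
      have h2 : min (c + 1) (l'.length - i) = c + 1 := by omega
      rw [h2] at h1
      push_cast at h1
      linarith
    have h1 := cs q (fun i => Wd w (l.take i)) (fun j => Wd w ((l.drop q).take j))
      (by simp [Wd]) (by simp [Wd])
      (fun i j hij hj => mono l hsupp.le i j hij (by omega))
      (fun i j hij hj => mono (l.drop q)
        ((supp_mono_sublist (List.drop_sublist _ _)).trans hsupp.le) i j hij
        (by rw [List.length_drop]; omega))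
    have h2 : Wd w (l.take q) + Wd w ((l.drop q).take q) = Wd w (l.take (2 * q)) := by
      rw [two_mul, Wd_take_add]
    simp only [h2] at h1
    constructor
    · simp only [hD, hZ, hh]
      exact_mod_cast h1
    · have := Wd_pos w T hw (l.take (2 * q))
        ((supp_mono_sublist (List.take_sublist _ _)).trans hsupp.le)
      simp only [hD]
      have h0 : (0 : ℤ) ≤ Wd w (l.take (2 * q)) := le_trans (Int.natCast_nonneg _) this
      exact_mod_cast h0
  -- mean of D
  set c : ℝ := 2 * h * R / t with hc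
  have hc0 : 0 < c := by positivity
  have hDsum : ∑ l ∈ arr T, (D l + 1) ≤ N * c := by
    have h1 := card_mul_sum_take w T (2 * q) h2q
    have h2 : t * ∑ l ∈ arr T, D l = 2 * q * ((∑ i ∈ T, (w i : ℝ)) * N) := by
      have : (((T.card : ℤ) * ∑ l ∈ arr T, Wd w (l.take (2 * q)) : ℤ) : ℝ) =
        (((2 * q : ℕ) * ((∑ i ∈ T, (w i : ℤ)) * (arr T).card) : ℤ) : ℝ) := by rw [h1]
      push_cast at this
      simp only [hD, ht, hN]
      exact this
    have h3 : (∑ i ∈ T, (w i : ℝ)) ≤ R := by exact_mod_cast hR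
    have h4 : t * ∑ l ∈ arr T, D l ≤ 2 * q * (R * N) := by
      rw [h2]
      gcongr
    rw [sum_add_distrib, sum_const, nsmul_eq_mul, mul_one, ← hN, hc, ← mul_div_assoc, le_div_iff₀ ht0]
    have h5 : N * t ≤ N * R := by gcongr
    have h6 : 0 ≤ N * R := by positivity
    nlinarith [h4, h5, h6]
  -- sum up
  have hstep : ∀ l ∈ arr T, h ^ 4 * (2 / c - (D l + 1) / c ^ 2) ≤ h ^ 2 + 2 * Z l := by
    intro l hl
    obtain ⟨h1, h2⟩ := hcs l hl
    have h3 : 0 < D l + 1 := by linarith
    have h4 : 2 / c - (D l + 1) / c ^ 2 ≤ 1 / (D l + 1) := by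
      rw [div_sub_div _ _ hc0.ne' (by positivity), div_le_div_iff₀ (by positivity) h3]
      nlinarith [sq_nonneg (D l + 1 - c), hc0, mul_pos hc0 hc0, mul_nonneg hc0.le (sq_nonneg (D l + 1 - c))]
    calc h ^ 4 * (2 / c - (D l + 1) / c ^ 2) ≤ h ^ 4 * (1 / (D l + 1)) := by gcongr
      _ ≤ h ^ 2 + 2 * Z l := by
        rw [mul_one_div, div_le_iff₀ h3]
        linarith
  have hZsum : ∑ l ∈ arr T, Z l ≤ h ^ 2 * ∑ a ∈ Icc 1 q, ∑ b ∈ Icc 1 q, (npi w T a b : ℝ) := by
    have := sum_sh_le w T q h2q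
    have h' : ((∑ l ∈ arr T, ∑ p ∈ range (q + 1) ×ˢ range (q + 1),
      ((sh q (fun i => Wd w (l.take i)) (fun j => Wd w ((l.drop q).take j)) p).card : ℤ) : ℤ) : ℝ) ≤
      ((((q : ℤ) + 1) ^ 2 * ∑ a ∈ Icc 1 q, ∑ b ∈ Icc 1 q, (npi w T a b : ℤ) : ℤ) : ℝ) := by
      exact_mod_cast this
    simp only [hZ, hh]
    push_cast at h' ⊢
    exact h'
  have hK : ∑ a ∈ Icc 1 q, ∑ b ∈ Icc 1 q, (npi w T a b : ℝ) ≤ ∑ l ∈ arr T, (Kz w m l : ℝ) := by
    exact_mod_cast (npi_le w T m).trans hA1
  have htot : h ^ 4 * (N / c) ≤ h ^ 2 * N + 2 * (h ^ 2 * ∑ l ∈ arr T, (Kz w m l : ℝ)) := by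
    have h1 := sum_le_sum hstep
    have e1 : ∑ l ∈ arr T, h ^ 4 * (2 / c - (D l + 1) / c ^ 2) =
        h ^ 4 * (N * (2 / c) - (∑ l ∈ arr T, (D l + 1)) / c ^ 2) := by
      rw [← mul_sum, sum_sub_distrib, sum_const, nsmul_eq_mul, ← sum_div]
    have e2 : ∑ l ∈ arr T, (h ^ 2 + 2 * Z l) = N * h ^ 2 + 2 * ∑ l ∈ arr T, Z l := by
      rw [sum_add_distrib, sum_const, nsmul_eq_mul, ← mul_sum]
    rw [e1, e2] at h1
    have h2 : N / c ≤ N * (2 / c) - (∑ l ∈ arr T, (D l + 1)) / c ^ 2 := by
      have : (∑ l ∈ arr T, (D l + 1)) / c ^ 2 ≤ N * c / c ^ 2 := by gcongr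
      have e : N * c / c ^ 2 = N / c := by field_simp
      have e2 : N * (2 / c) = N / c + N / c := by ring
      rw [e] at this
      linarith
    have h3 : h ^ 4 * (N / c) ≤ h ^ 4 * (N * (2 / c) - (∑ l ∈ arr T, (D l + 1)) / c ^ 2) := by
      gcongr
    have h4 : h ^ 2 * ∑ a ∈ Icc 1 q, ∑ b ∈ Icc 1 q, (npi w T a b : ℝ) ≤
      h ^ 2 * ∑ l ∈ arr T, (Kz w m l : ℝ) := by gcongr
    nlinarith [h1, h3, hZsum, h4]
  have hfin : h ^ 2 * (N / c) ≤ N + 2 * ∑ l ∈ arr T, (Kz w m l : ℝ) := by
    have h2 : 0 < h ^ 2 := by positivity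
    have : h ^ 2 * (h ^ 2 * (N / c)) ≤ h ^ 2 * (N + 2 * ∑ l ∈ arr T, (Kz w m l : ℝ)) := by
      nlinarith [htot]
    exact le_of_mul_le_mul_left this h2
  have he : h ^ 2 * (N / c) = N * (h * t / (2 * R)) := by
    rw [hc]
    field_simp
  rw [he] at hfin
  have hm2 : ((m : ℝ) + 1) ≤ 2 * h := by
    have : m + 1 ≤ 2 * (q + 1) := by omega
    have h' : ((m + 1 : ℕ) : ℝ) ≤ ((2 * (q + 1) : ℕ) : ℝ) := by exact_mod_cast this
    push_cast at h'
    rw [hh]
    linarith
  rw [sum_add_distrib, sum_const, nsmul_eq_mul, mul_one, ← hN]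
  have hK0 : 0 ≤ ∑ l ∈ arr T, (Kz w m l : ℝ) := sum_nonneg fun l _ => by positivity
  calc ((m : ℝ) + 1) * t / (8 * R) * N ≤ (2 * h) * t / (8 * R) * N := by gcongr
    _ = (N * (h * t / (2 * R))) / 2 := by field_simp; ring
    _ ≤ (N + 2 * ∑ l ∈ arr T, (Kz w m l : ℝ)) / 2 := by linarith
    _ ≤ ∑ l ∈ arr T, (Kz w m l : ℝ) + N := by linarith

end Pool.Agent.Helper9.SAW
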